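import Pool.Agent.Helper23_ZAR.Asm2

/-!
# A basis which is not an equisingular basis

Answer (no) to the question whether, for a hypersurface `V` equisingular at `Q` along `M`, every
basis of the maximal ideal of the local ring of `V` at `Q` is an equisingular basis relative to `M`.

All definitions used by the statement are in `Pool.Agent.ZAR.Base`: `mI`, `singI`, `IsBasis`, `bc`,
`extI`, `xu`, `jac`, `proj`, `critLocus`, `critI`, `imgI`, `KU`, `uu`, `Equisingular`.

* The germ at the origin `Q` of a hypersurface in affine `n`-space over `K` is given by its
  (radical) ideal `I` in `MvPowerSeries (Fin n) K`, the irreducible subvariety `M` by a prime `P`.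
* `singI I = ⊤` says that `Q` is a simple point, `singI I ≤ P` that `M` lies in the singular locus.
* `critI (uu n K) x I` is the reduced ideal of the critical variety for the basis `x`: for the ideal
  of `f` it consists of all `g` some power of which, composed with `x^u`, is a combination of `f` and
  the Jacobian determinant of `(f, x^u)`; `imgI` is the ideal of the image of `M`.  The ground field
  is replaced by `KU n K`, the algebraic closure of `K(u_ij)`.
* `Equisingular B s n K I P` is the inductive definition of equisingularity along `M`, of codimension
  `s` in the hypersurface, with bases of the class `B`: all formal bases, all families of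
  polynomials, of regular functions, of algebraic series, the coordinates only, ...  The theorem
  holds for every class which contains the coordinates `X`.

The ideals `I` and `P` of the theorem are generated by polynomials and the basis `b` consists of
polynomials.  `V` is the union of seven smooth hypersurfaces, has dimension 5 and is a product along
the line `M` (the `x₅`-axis), which has codimension `s = 4` in `V`.
-/

namespace Pool.Agent.Results.MP_c9b61d_ag.EquisingularBases

open MvPowerSeries Pool.Agent.ZAR

/-- Let `k` be a field of characteristic 0 (for instance algebraically closed),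
`V : x₀ (x₀ - x₂³) (x₀ + x₂² x₃) x₁ x₂ x₃ (x₂ + x₃ - x₁² x₄) = 0` in affine 6-space, `Q` the origin,
`M` the `x₅`-axis and `b = (x₀, x₁, x₂ + x₅ x₁², x₃, x₄, x₅)`.  Then `V` is reduced, `M` is an
irreducible subvariety of the singular locus of `V`, `b` is a basis of the maximal ideal of the local
ring of `V` at `Q`, `V` is equisingular at `Q` along `M`, but the generic critical variety of `V` for
the basis `b` is not equisingular along the image of `M`. -/
theorem result
    (B : (n : ℕ) → (K : Type) → [Field K] → (Fin n → MvPowerSeries (Fin n) K) → Prop)
    (hB : ∀ (n : ℕ) (K : Type) [Field K], B n K X)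
    (k : Type) [Field k] [CharZero k] :
    let I : Ideal (MvPowerSeries (Fin 6) k) := Ideal.span {X 0 * (X 0 - X 2 ^ 3) *
      (X 0 + X 2 ^ 2 * X 3) * X 1 * X 2 * X 3 * (X 2 + X 3 - X 1 ^ 2 * X 4)}
    let P : Ideal (MvPowerSeries (Fin 6) k) := Ideal.span {X 0, X 1, X 2, X 3, X 4}
    let b : Fin 6 → MvPowerSeries (Fin 6) k := ![X 0, X 1, X 2 + X 5 * X 1 ^ 2, X 3, X 4, X 5]
    I.IsRadical ∧ P.IsPrime ∧ I ≤ P ∧ singI I ≤ P ∧ IsBasis I b ∧
    Equisingular B 4 6 k I P ∧
    ¬ Equisingular B 3 5 (KU 5 k) (critI (uu 5 k) b I) (imgI (uu 5 k) b P) :=
  H23.main B hB k

end Pool.Agent.Results.MP_c9b61d_ag.EquisingularBases
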